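import Pool.Agent.H50.BesselF

set_option autoImplicit false

namespace Pool.Agent.Results.MP_bed2b2_an.BesselRays

/-- The Bessel function `J_0` of a complex variable, by its power series. -/
noncomputable def besselJ0 (z : ℂ) : ℂ :=
  ∑' k : ℕ, (-1 : ℂ) ^ k / ((k.factorial : ℂ)) ^ 2 * (z / 2) ^ (2 * k)

/-- The open ray from the origin with angle `θ`. -/
def ray (θ : ℝ) : Set ℂ := {z | ∃ t : ℝ, 0 < t ∧ z = (t : ℂ) * Complex.exp ((θ : ℂ) * Complex.I)}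

theorem besselJ0_eq (z : ℂ) : besselJ0 z = Pool.Agent.H50.J0 ℂ z := by
  rw [Pool.Agent.H50.J0_eq_tsum]
  unfold besselJ0
  refine tsum_congr fun k => ?_
  ring

theorem hr_eq (θ t : ℝ) : (‖besselJ0 ((t : ℂ) * Complex.exp ((θ : ℂ) * Complex.I))‖ ^ 2 - 1) /
    t ^ 2 = Pool.Agent.H50.hr (Complex.exp ((θ : ℂ) * Complex.I)) t := by
  unfold Pool.Agent.H50.hr Pool.Agent.H50.Gr
  rw [besselJ0_eq, Complex.normSq_eq_norm_sq]

theorem mono (θ : ℝ) : StrictMonoOn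
    (fun t : ℝ => (‖besselJ0 ((t : ℂ) * Complex.exp ((θ : ℂ) * Complex.I))‖ ^ 2 - 1) / t ^ 2)
    (Set.Ioi 0) := by
  intro s hs t _ hst
  show (‖besselJ0 ((s : ℂ) * Complex.exp ((θ : ℂ) * Complex.I))‖ ^ 2 - 1) / s ^ 2 <
    (‖besselJ0 ((t : ℂ) * Complex.exp ((θ : ℂ) * Complex.I))‖ ^ 2 - 1) / t ^ 2
  rw [hr_eq, hr_eq]
  exact Pool.Agent.H50.hr_strictMono' _ (Complex.exp_ne_zero _) s t hs hst

/-- On every open ray from the origin the function `(|J_0(z)|² - 1) / |z|²` is strictly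
increasing in `|z|`; consequently the equation `J_0(z) = 1` has at most one solution on every
such ray. -/
theorem result :
    (∀ θ : ℝ, StrictMonoOn
      (fun t : ℝ => (‖besselJ0 ((t : ℂ) * Complex.exp ((θ : ℂ) * Complex.I))‖ ^ 2 - 1) / t ^ 2)
      (Set.Ioi 0)) ∧
    ∀ θ : ℝ, {z ∈ ray θ | besselJ0 z = 1}.Subsingleton := by
  refine ⟨mono, fun θ => ?_⟩
  rintro z ⟨⟨s, hs, rfl⟩, h1⟩ w ⟨⟨t, ht, rfl⟩, h2⟩
  have h3 := (mono θ).injOn (show s ∈ Set.Ioi (0 : ℝ) from hs) (show t ∈ Set.Ioi (0 : ℝ) from ht)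
  rw [h3]
  simp only [h1, h2]
  simp

end Pool.Agent.Results.MP_bed2b2_an.BesselRays
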